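import Pool.Agent.Helper18.NF.StA
import Pool.Agent.Helper51.BV.Average

/-!
Project NF (MP_265190_nt), module NF-24: from primitive characters to residue classes, for systems
(following the module of helper51 for the von Mangoldt function).
-/

set_option autoImplicit false

open Finset Filter Topology
open scoped ArithmeticFunction.vonMangoldt

namespace Pool.Agent.Helper95.NF

open Pool.Agent.Helper18.NF Pool.Agent.Helper18.BV

namespace BVav

open Pool.Agent.Helper51.BV (EE EE_nonneg EE_le prim_apply sum_prim_le card_char card_prim_le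
  sum_div_le sum_inv_totient_le)

/-- The bound for the contribution of the integers not coprime to `d`. -/
noncomputable def E2 (N : ℕ) (g : ℝ → ℝ) (x : ℝ) (d : ℕ) : ℝ := N * EE g x d

theorem E2_nonneg {N : ℕ} {g : ℝ → ℝ} (hg : IsWt g) (x : ℝ) (d : ℕ) : 0 ≤ E2 N g x d :=
  mul_nonneg (Nat.cast_nonneg _) (EE_nonneg hg x d)

theorem E2_bound {N : ℕ} {L : ArithmeticFunction ℝ} (hLN : ∀ m : ℕ, L m ≤ N * Λ m) {g : ℝ → ℝ}
    (hg : IsWt g) (x : ℝ) (d : ℕ) :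
    ∑ n ∈ (Icc 1 ⌊x⌋₊).filter (fun n => ¬ Nat.Coprime n d), L n * wt g x n ≤ E2 N g x d := by
  unfold E2 EE
  rw [Finset.mul_sum]
  refine Finset.sum_le_sum fun n _ => ?_
  rw [← mul_assoc]
  exact mul_le_mul_of_nonneg_right (hLN n) (wt_nonneg hg _ _)

theorem SS_sub_restr {N : ℕ} {L : ArithmeticFunction ℝ} (hL0 : ∀ m : ℕ, 0 ≤ L m)
    (hLN : ∀ m : ℕ, L m ≤ N * Λ m) {g : ℝ → ℝ} (hg : IsWt g) (x : ℝ) {q : ℕ} (χ : DirichletCharacter ℂ q) (d : ℕ) :
    ‖SS (cx L) g x χ - ∑ n ∈ (Icc 1 ⌊x⌋₊).filter (fun n => Nat.Coprime n d),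
      cx L n * χ (n : ZMod q) * (wt g x n : ℂ)‖ ≤ E2 N g x d := by
  refine le_trans ?_ (E2_bound hLN hg x d)
  unfold SS
  rw [← Finset.sum_filter_add_sum_filter_not (Icc 1 ⌊x⌋₊) (fun n => Nat.Coprime n d),
    add_sub_cancel_left]
  refine (norm_sum_le _ _).trans (Finset.sum_le_sum fun n _ => ?_)
  rw [norm_mul, norm_mul, cx_apply, Complex.norm_real, Complex.norm_real,
    Real.norm_of_nonneg (hL0 n),
    Real.norm_of_nonneg (wt_nonneg hg _ _)]
  have h1 : ‖χ (n : ZMod q)‖ ≤ 1 := DirichletCharacter.norm_le_one χ _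
  have h2 : 0 ≤ L n := hL0 n
  have h3 := wt_nonneg hg x n
  exact mul_le_mul_of_nonneg_right (mul_le_of_le_one_right h2 h1) h3

theorem SS_full {L : ArithmeticFunction ℝ} {g : ℝ → ℝ} (x : ℝ) {d : ℕ} (χ : DirichletCharacter ℂ d) :
    SS (cx L) g x χ = ∑ n ∈ (Icc 1 ⌊x⌋₊).filter (fun n => Nat.Coprime n d),
      cx L n * χ (n : ZMod d) * (wt g x n : ℂ) := by
  unfold SS
  symm
  refine Finset.sum_subset (Finset.filter_subset _ _) ?_
  intro n hn hn'
  have h : ¬ IsUnit ((n : ZMod d)) := by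
    rw [ZMod.isUnit_iff_coprime]
    exact fun h => hn' (Finset.mem_filter.mpr ⟨hn, h⟩)
  rw [χ.map_nonunit h, mul_zero, zero_mul]

theorem SS_prim {N : ℕ} {L : ArithmeticFunction ℝ} (hL0 : ∀ m : ℕ, 0 ≤ L m)
    (hLN : ∀ m : ℕ, L m ≤ N * Λ m) {g : ℝ → ℝ} (hg : IsWt g) (x : ℝ) {d : ℕ} (χ : DirichletCharacter ℂ d) :
    ‖SS (cx L) g x χ‖ ≤ ‖SS (cx L) g x χ.primitiveCharacter‖ + E2 N g x d := by
  have h1 := SS_sub_restr hL0 hLN hg x χ.primitiveCharacter d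
  have h2 : (∑ n ∈ (Icc 1 ⌊x⌋₊).filter (fun n => Nat.Coprime n d),
      cx L n * χ.primitiveCharacter (n : ZMod χ.conductor) * (wt g x n : ℂ)) = SS (cx L) g x χ := by
    rw [SS_full x χ]
    refine Finset.sum_congr rfl fun n hn => ?_
    rw [prim_apply χ (Finset.mem_filter.mp hn).2]
  rw [h2] at h1
  have h3 := norm_sub_norm_le (SS (cx L) g x χ) (SS (cx L) g x χ.primitiveCharacter)
  rw [norm_sub_rev] at h1
  linarith

theorem SS_one {N : ℕ} {L : ArithmeticFunction ℝ} (hL0 : ∀ m : ℕ, 0 ≤ L m)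
    (hLN : ∀ m : ℕ, L m ≤ N * Λ m) {g : ℝ → ℝ} (hg : IsWt g) (x : ℝ) {d : ℕ} :
    ‖SS (cx L) g x (1 : DirichletCharacter ℂ d) -
      ((∑ n ∈ Icc 1 ⌊x⌋₊, L n * wt g x n : ℝ) : ℂ)‖ ≤ E2 N g x d := by
  rw [SS_full]
  have h1 : (∑ n ∈ (Icc 1 ⌊x⌋₊).filter (fun n => Nat.Coprime n d),
      cx L n * (1 : DirichletCharacter ℂ d) (n : ZMod d) * (wt g x n : ℂ)) =
      ((∑ n ∈ (Icc 1 ⌊x⌋₊).filter (fun n => Nat.Coprime n d), L n * wt g x n : ℝ) : ℂ) := by
    push_cast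
    refine Finset.sum_congr rfl fun n hn => ?_
    rw [MulChar.one_apply ((ZMod.isUnit_iff_coprime n d).mpr (Finset.mem_filter.mp hn).2),
      mul_one, cx_apply]
  rw [h1, ← Complex.ofReal_sub, Complex.norm_real,
    ← Finset.sum_filter_add_sum_filter_not (Icc 1 ⌊x⌋₊) (fun n => Nat.Coprime n d)]
  rw [Real.norm_eq_abs, sub_add_cancel_left, abs_neg]
  rw [abs_of_nonneg (Finset.sum_nonneg fun n _ => mul_nonneg (hL0 n) (wt_nonneg hg x n))]
  exact E2_bound hLN hg x d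

theorem orth {L : ArithmeticFunction ℝ} {g : ℝ → ℝ} (x : ℝ) {d : ℕ} [NeZero d] {c : ℕ} (hc : Nat.Coprime c d) :
    (d.totient : ℂ) * ((∑ n ∈ (Icc 1 ⌊x⌋₊).filter (fun n => n ≡ c [MOD d]),
      L n * wt g x n : ℝ) : ℂ) =
      ∑ χ : DirichletCharacter ℂ d, χ ((c : ZMod d)⁻¹) * SS (cx L) g x χ := by
  have hu : IsUnit ((c : ZMod d)) := (ZMod.isUnit_iff_coprime c d).mpr hc
  unfold SS
  simp_rw [Finset.mul_sum]
  rw [Finset.sum_comm]
  have h1 : ∀ n ∈ Icc 1 ⌊x⌋₊, (∑ χ : DirichletCharacter ℂ d, χ ((c : ZMod d)⁻¹) *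
      (cx L n * χ (n : ZMod d) * (wt g x n : ℂ))) =
      if n ≡ c [MOD d] then (d.totient : ℂ) * ((L n * wt g x n : ℝ) : ℂ) else 0 := by
    intro n _
    have h2 : (∑ χ : DirichletCharacter ℂ d, χ ((c : ZMod d)⁻¹) *
      (cx L n * χ (n : ZMod d) * (wt g x n : ℂ))) =
      (∑ χ : DirichletCharacter ℂ d, χ ((c : ZMod d)⁻¹) * χ (n : ZMod d)) *
        (cx L n * (wt g x n : ℂ)) := by
      rw [Finset.sum_mul]
      refine Finset.sum_congr rfl fun χ _ => ?_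
      ring
    rw [h2, DirichletCharacter.sum_char_inv_mul_char_eq ℂ hu]
    have h3 : ((c : ZMod d) = (n : ZMod d)) ↔ n ≡ c [MOD d] := by
      rw [eq_comm, ZMod.natCast_eq_natCast_iff]
    simp only [h3]
    split_ifs
    · rw [cx_apply]; push_cast; ring
    · rw [zero_mul]
  rw [Finset.sum_congr rfl h1, ← Finset.sum_filter]
  push_cast
  rw [Finset.mul_sum]

/-- The error term of one modulus. -/
theorem one_modulus {N : ℕ} {L : ArithmeticFunction ℝ} (hL0 : ∀ m : ℕ, 0 ≤ L m)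
    (hLN : ∀ m : ℕ, L m ≤ N * Λ m) {g : ℝ → ℝ} (hg : IsWt g) (x : ℝ) {d : ℕ} (hd : 0 < d) {c : ℕ}
    (hc : Nat.Coprime c d) :
    |∑ n ∈ (Icc 1 ⌊x⌋₊).filter (fun n => n ≡ c [MOD d]), L n * wt g x n -
          (1 / (d.totient : ℝ)) * ∑ n ∈ Icc 1 ⌊x⌋₊, L n * wt g x n| ≤
      (1 / (d.totient : ℝ)) * ∑ q ∈ d.divisors.filter (fun q => 1 < q),
        ∑ ψ ∈ prim q, ‖SS (cx L) g x ψ‖ + E2 N g x d := by
  classical
  have : NeZero d := ⟨hd.ne'⟩
  have ht : (0 : ℝ) < d.totient := by exact_mod_cast Nat.totient_pos.2 hd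
  set S1 : ℝ := ∑ n ∈ (Icc 1 ⌊x⌋₊).filter (fun n => n ≡ c [MOD d]), L n * wt g x n with hS1
  set S : ℝ := ∑ n ∈ Icc 1 ⌊x⌋₊, L n * wt g x n with hS
  have h1 := orth (L := L) (g := g) x hc
  rw [← hS1, ← Finset.sum_filter_add_sum_filter_not univ (fun χ : DirichletCharacter ℂ d => χ ≠ 1)]
    at h1
  have h2 : (univ.filter (fun χ : DirichletCharacter ℂ d => ¬ χ ≠ 1)) = {1} := by
    ext χ; simp
  have hu : IsUnit ((c : ZMod d)⁻¹) := by
    have := (ZMod.isUnit_iff_coprime c d).mpr hc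
    obtain ⟨u, hu⟩ := this
    rw [← hu, ZMod.inv_coe_unit]
    exact Units.isUnit _
  rw [h2, Finset.sum_singleton, MulChar.one_apply hu, one_mul] at h1
  have h3 : ((d.totient * S1 - S : ℝ) : ℂ) =
      (∑ χ ∈ univ.filter (fun χ : DirichletCharacter ℂ d => χ ≠ 1),
        χ ((c : ZMod d)⁻¹) * SS (cx L) g x χ) + (SS (cx L) g x (1 : DirichletCharacter ℂ d) - (S : ℂ)) := by
    push_cast
    rw [h1]; ring
  have h4 : |d.totient * S1 - S| ≤
      (∑ χ ∈ univ.filter (fun χ : DirichletCharacter ℂ d => χ ≠ 1),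
        (‖SS (cx L) g x χ.primitiveCharacter‖ + E2 N g x d)) + E2 N g x d := by
    rw [← Real.norm_eq_abs, ← Complex.norm_real, h3]
    refine (norm_add_le _ _).trans (add_le_add ((norm_sum_le _ _).trans
      (Finset.sum_le_sum fun χ _ => ?_)) (SS_one hL0 hLN hg x))
    rw [norm_mul]
    calc ‖χ ((c : ZMod d)⁻¹)‖ * ‖SS (cx L) g x χ‖ ≤ 1 * ‖SS (cx L) g x χ‖ :=
          mul_le_mul_of_nonneg_right (DirichletCharacter.norm_le_one χ _) (norm_nonneg _)
      _ ≤ _ := by rw [one_mul]; exact SS_prim hL0 hLN hg x χ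
  rw [Finset.sum_add_distrib, Finset.sum_const, nsmul_eq_mul] at h4
  have h5 := sum_prim_le (d := d) (fun p => ‖SS (cx L) g x p.2‖) (fun p => norm_nonneg _)
  have h6 : ((univ.filter (fun χ : DirichletCharacter ℂ d => χ ≠ 1)).card : ℝ) + 1 = d.totient := by
    have h7 := Finset.card_filter_add_card_filter_not (s := (univ : Finset (DirichletCharacter ℂ d)))
      (fun χ => χ ≠ 1)
    rw [h2, Finset.card_singleton, card_char d] at h7
    exact_mod_cast h7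
  have h8 : S1 - 1 / (d.totient : ℝ) * S = (d.totient * S1 - S) / d.totient := by
    field_simp
  rw [h8, abs_div, abs_of_pos ht, div_le_iff₀ ht]
  have h9 : ((1 / (d.totient : ℝ)) * ∑ q ∈ d.divisors.filter (fun q => 1 < q),
        ∑ ψ ∈ prim q, ‖SS (cx L) g x ψ‖ + E2 N g x d) * d.totient =
        (∑ q ∈ d.divisors.filter (fun q => 1 < q), ∑ ψ ∈ prim q, ‖SS (cx L) g x ψ‖) +
          E2 N g x d * d.totient := by
    field_simp
  rw [h9]
  refine h4.trans ?_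
  simp only at h5
  have h10 : E2 N g x d * d.totient =
      ((univ.filter (fun χ : DirichletCharacter ℂ d => χ ≠ 1)).card : ℝ) * E2 N g x d + E2 N g x d := by
    rw [← h6]; ring
  rw [h10]
  linarith

theorem swap (L : ArithmeticFunction ℝ) (g : ℝ → ℝ) (x : ℝ) (D : ℕ) :
    ∑ d ∈ Icc 1 D, (1 / (d.totient : ℝ)) * ∑ q ∈ d.divisors.filter (fun q => 1 < q),
        ∑ ψ ∈ prim q, ‖SS (cx L) g x ψ‖ ≤
      (∑ q ∈ Ioc 1 D, (1 / (q.totient : ℝ)) * ∑ ψ ∈ prim q, ‖SS (cx L) g x ψ‖) *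
        ∑ m ∈ Icc 1 D, (1 : ℝ) / m.totient := by
  set T : ℕ → ℝ := fun q => ∑ ψ ∈ prim q, ‖SS (cx L) g x ψ‖ with hT
  have hT0 : ∀ q, 0 ≤ T q := fun q => Finset.sum_nonneg fun _ _ => norm_nonneg _
  set u : ℕ → ℝ := fun q => if 1 < q then (1 / (q.totient : ℝ)) * T q else 0 with hu
  have hu0 : ∀ q, 0 ≤ u q := by
    intro q
    simp only [hu]
    split_ifs
    · exact mul_nonneg (by positivity) (hT0 q)
    · exact le_rfl
  have h1 := sum_div_le D u (fun m => (1 : ℝ) / m.totient) hu0 (fun m => by positivity)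
  have h2 : ∑ q ∈ Icc 1 D, u q = ∑ q ∈ Ioc 1 D, (1 / (q.totient : ℝ)) * T q := by
    symm
    rw [← Finset.sum_subset (s₁ := Ioc 1 D) (s₂ := Icc 1 D)]
    · refine Finset.sum_congr rfl fun q hq => ?_
      simp only [hu]
      rw [if_pos (Finset.mem_Ioc.mp hq).1]
    · intro q hq
      rw [Finset.mem_Ioc] at hq
      exact Finset.mem_Icc.mpr ⟨hq.1.le, hq.2⟩
    · intro q hq hq'
      simp only [hu]
      rw [if_neg]
      intro h
      exact hq' (Finset.mem_Ioc.mpr ⟨h, (Finset.mem_Icc.mp hq).2⟩)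
  rw [h2] at h1
  refine le_trans (Finset.sum_le_sum fun d hd => ?_) h1
  rw [Finset.mem_Icc] at hd
  have h3 : ∑ q ∈ d.divisors, u q * (1 / ((d / q).totient : ℝ)) =
      ∑ q ∈ d.divisors.filter (fun q => 1 < q),
        (1 / (q.totient : ℝ)) * T q * (1 / ((d / q).totient : ℝ)) := by
    rw [Finset.sum_filter]
    refine Finset.sum_congr rfl fun q _ => ?_
    simp only [hu]
    split_ifs
    · rfl
    · rw [zero_mul]
  rw [h3, Finset.mul_sum]
  refine Finset.sum_le_sum fun q hq => ?_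
  have hqd := (Finset.mem_filter.mp hq).1
  have hq0 : 0 < q := Nat.pos_of_mem_divisors hqd
  have hdvd := Nat.dvd_of_mem_divisors hqd
  have hdq : 0 < d / q := Nat.div_pos (Nat.le_of_dvd hd.1 hdvd) hq0
  have e : q * (d / q) = d := Nat.mul_div_cancel' hdvd
  have h4 : q.totient * (d / q).totient ≤ d.totient := by
    have := Nat.totient_super_multiplicative q (d / q)
    rwa [e] at this
  have h5 : (q.totient : ℝ) * (d / q).totient ≤ d.totient := by exact_mod_cast h4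
  have p1 : (0 : ℝ) < q.totient := by exact_mod_cast Nat.totient_pos.2 hq0
  have p2 : (0 : ℝ) < (d / q).totient := by exact_mod_cast Nat.totient_pos.2 hdq
  have h6 : 1 / (d.totient : ℝ) ≤ 1 / ((q.totient : ℝ) * (d / q).totient) :=
    one_div_le_one_div_of_le (by positivity) h5
  calc 1 / (d.totient : ℝ) * T q ≤ 1 / ((q.totient : ℝ) * (d / q).totient) * T q :=
        mul_le_mul_of_nonneg_right h6 (hT0 q)
    _ = 1 / (q.totient : ℝ) * T q * (1 / ((d / q).totient : ℝ)) := by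
        field_simp


end BVav

open BVav Pool.Agent.Helper51.BV in
/-- NF-24: the theorem for residue classes. -/
theorem bVavF (h1 : SmallF) (h2 : LargeF) : BVavF := by
  intro N r L κ hsys g hg A hA
  have hN1 : 1 ≤ N := hsys.pos
  have hL0 := hsys.L_nonneg
  have hLN := hsys.L_le
  obtain ⟨G, hG0, hG⟩ := hg.exists_bound
  obtain ⟨B, C1, X1, hB, hC1, hX1, hL⟩ := h2 N r L κ hsys g hg (A + 2) (by linarith)
  obtain ⟨C2, X2, hC2, hX2, hS⟩ := h1 N r L κ hsys g hg (A + 2 + B) B (by linarith) hB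
  have hev : ∀ᶠ x : ℝ in atTop, ‖Real.log x ^ (A + 2)‖ ≤ 1 * ‖x ^ (9 / 20 : ℝ)‖ :=
    (isLittleO_log_rpow_rpow_atTop (A + 2) (by norm_num : (0 : ℝ) < 9 / 20)).bound one_pos
  obtain ⟨X3, hX3⟩ := Filter.eventually_atTop.mp hev
  refine ⟨4 * (C1 + C2) + 2 * (N * G), max (max X1 X2) X3, by positivity,
    hX1.trans ((le_max_left _ _).trans (le_max_left _ _)), ?_⟩
  intro x hx c hc
  have hx1 : X1 ≤ x := ((le_max_left _ _).trans (le_max_left _ _)).trans hx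
  have hx2 : X2 ≤ x := ((le_max_right _ _).trans (le_max_left _ _)).trans hx
  have hx3 : X3 ≤ x := (le_max_right _ _).trans hx
  have h3x : 3 ≤ x := hX1.trans hx1
  have hx0 : 0 < x := by linarith
  set l : ℝ := Real.log x with hl
  have hl1 : 1 ≤ l := by
    rw [hl, Real.le_log_iff_exp_le hx0]
    linarith [Real.exp_one_lt_d9]
  have hl0 : 0 < l := by linarith
  set D : ℕ := ⌊x ^ (1 / (40 * N ^ 2) : ℝ)⌋₊ with hD
  have hDx : (D : ℝ) ≤ x ^ (1 / 40 : ℝ) := by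
    refine (Nat.floor_le (Real.rpow_nonneg hx0.le _)).trans ?_
    refine Real.rpow_le_rpow_of_exponent_le (by linarith) ?_
    have h1N : (1 : ℝ) ≤ N := by exact_mod_cast hN1
    have h2N : (1 : ℝ) ≤ (N : ℝ) ^ 2 := one_le_pow₀ h1N
    exact one_div_le_one_div_of_le (by norm_num) (by linarith)
  -- the large conductors
  have hLx := hL x hx1
  -- the small conductors
  set T : ℕ → ℝ := fun q => ∑ ψ ∈ prim q, ‖SS (cx L) g x ψ‖ with hT
  have hT0 : ∀ q, 0 ≤ T q := fun q => Finset.sum_nonneg fun _ _ => norm_nonneg _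
  have hSx : ∑ q ∈ Ioc 1 ⌊l ^ B⌋₊, (1 / (q.totient : ℝ)) * T q ≤ C2 / l ^ (A + 2) := by
    have hterm : ∀ q ∈ Ioc 1 ⌊l ^ B⌋₊, (1 / (q.totient : ℝ)) * T q ≤ C2 / l ^ (A + 2 + B) := by
      intro q hq
      rw [Finset.mem_Ioc] at hq
      have hq0 : 0 < q := by omega
      have hqB : (q : ℝ) ≤ l ^ B :=
        (Nat.cast_le.mpr hq.2).trans (Nat.floor_le (Real.rpow_nonneg hl0.le _))
      have p1 : (0 : ℝ) < q.totient := by exact_mod_cast Nat.totient_pos.2 hq0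
      have h4 : T q ≤ (prim q).card • (C2 / l ^ (A + 2 + B)) :=
        Finset.sum_le_card_nsmul _ _ _ fun ψ hψ => hS x hx2 q hq.1 hqB ψ hψ
      rw [nsmul_eq_mul] at h4
      have h5 : T q ≤ q.totient * (C2 / l ^ (A + 2 + B)) :=
        h4.trans (mul_le_mul_of_nonneg_right (card_prim_le q hq0) (by positivity))
      calc 1 / (q.totient : ℝ) * T q ≤ 1 / (q.totient : ℝ) * (q.totient * (C2 / l ^ (A + 2 + B))) :=
            mul_le_mul_of_nonneg_left h5 (by positivity)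
        _ = C2 / l ^ (A + 2 + B) := by field_simp
    refine (Finset.sum_le_card_nsmul _ _ _ hterm).trans ?_
    rw [nsmul_eq_mul, Nat.card_Ioc]
    have h6 : ((⌊l ^ B⌋₊ - 1 : ℕ) : ℝ) ≤ l ^ B := by
      have h7 : ((⌊l ^ B⌋₊ - 1 : ℕ) : ℝ) ≤ (⌊l ^ B⌋₊ : ℕ) := by exact_mod_cast Nat.sub_le _ _
      exact h7.trans (Nat.floor_le (Real.rpow_nonneg hl0.le _))
    calc ((⌊l ^ B⌋₊ - 1 : ℕ) : ℝ) * (C2 / l ^ (A + 2 + B)) ≤ l ^ B * (C2 / l ^ (A + 2 + B)) :=
          mul_le_mul_of_nonneg_right h6 (by positivity)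
      _ = C2 / l ^ (A + 2) := by
          rw [Real.rpow_add hl0 (A + 2) B]
          have : 0 < l ^ B := Real.rpow_pos_of_pos hl0 _
          have : 0 < l ^ (A + 2) := Real.rpow_pos_of_pos hl0 _
          field_simp
  have hall : ∑ q ∈ Ioc 1 D, (1 / (q.totient : ℝ)) * T q ≤ (C1 + C2) / l ^ (A + 2) := by
    have hsub : Ioc 1 D ⊆ Ioc 1 ⌊l ^ B⌋₊ ∪ Ioc ⌊l ^ B⌋₊ D := by
      intro q hq
      rw [Finset.mem_Ioc] at hq
      rw [Finset.mem_union, Finset.mem_Ioc, Finset.mem_Ioc]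
      by_cases h : q ≤ ⌊l ^ B⌋₊
      · exact Or.inl ⟨hq.1, h⟩
      · exact Or.inr ⟨by omega, hq.2⟩
    have hnn : ∀ q, 0 ≤ (1 / (q.totient : ℝ)) * T q := fun q => mul_nonneg (by positivity) (hT0 q)
    calc ∑ q ∈ Ioc 1 D, (1 / (q.totient : ℝ)) * T q
        ≤ ∑ q ∈ Ioc 1 ⌊l ^ B⌋₊ ∪ Ioc ⌊l ^ B⌋₊ D, (1 / (q.totient : ℝ)) * T q :=
          Finset.sum_le_sum_of_subset_of_nonneg hsub fun q _ _ => hnn q
      _ ≤ (∑ q ∈ Ioc 1 ⌊l ^ B⌋₊, (1 / (q.totient : ℝ)) * T q) +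
          ∑ q ∈ Ioc ⌊l ^ B⌋₊ D, (1 / (q.totient : ℝ)) * T q := by
          rw [← Finset.sum_union_inter]
          exact le_add_of_nonneg_right (Finset.sum_nonneg fun q _ => hnn q)
      _ ≤ C2 / l ^ (A + 2) + C1 / l ^ (A + 2) := add_le_add hSx hLx
      _ = (C1 + C2) / l ^ (A + 2) := by ring
  -- the sum of 1 / φ
  have hphi : ∑ m ∈ Icc 1 D, (1 : ℝ) / m.totient ≤ 4 * l ^ 2 := by
    refine (sum_inv_totient_le D).trans ?_
    have h7 : Real.log D ≤ l := by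
      rcases Nat.eq_zero_or_pos D with h0 | h0
      · rw [h0]; simp; exact hl0.le
      · have h8 : (D : ℝ) ≤ x := by
          refine hDx.trans ?_
          calc x ^ (1 / 40 : ℝ) ≤ x ^ (1 : ℝ) :=
                Real.rpow_le_rpow_of_exponent_le (by linarith) (by norm_num)
            _ = x := Real.rpow_one x
        exact Real.log_le_log (by exact_mod_cast h0) h8
    have h9 : 0 ≤ Real.log D := Real.log_natCast_nonneg D
    nlinarith
  -- the integers not coprime to the modulus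
  have hEE : ∑ d ∈ Icc 1 D, EE g x d ≤ 2 * G / l ^ A := by
    have h7 : ∀ d ∈ Icc 1 D, EE g x d ≤ D * (2 * l) * (l * (G / x ^ (1 / 2 : ℝ))) := by
      intro d hd
      rw [Finset.mem_Icc] at hd
      refine (EE_le hg hG hG0 h3x d hd.1).trans ?_
      have : (d : ℝ) ≤ D := by exact_mod_cast hd.2
      have hxs : 0 < x ^ (1 / 2 : ℝ) := Real.rpow_pos_of_pos hx0 _
      gcongr
    refine (Finset.sum_le_card_nsmul _ _ _ h7).trans ?_
    rw [nsmul_eq_mul, Nat.card_Icc, Nat.add_sub_cancel]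
    have hxs : 0 < x ^ (1 / 2 : ℝ) := Real.rpow_pos_of_pos hx0 _
    have h8 : (D : ℝ) * D ≤ x ^ (1 / 20 : ℝ) := by
      calc (D : ℝ) * D ≤ x ^ (1 / 40 : ℝ) * x ^ (1 / 40 : ℝ) :=
            mul_le_mul hDx hDx (Nat.cast_nonneg _) (Real.rpow_nonneg hx0.le _)
        _ = x ^ (1 / 20 : ℝ) := by rw [← Real.rpow_add hx0]; norm_num
    have h9 := hX3 x hx3
    rw [one_mul, Real.norm_of_nonneg (Real.rpow_nonneg hl0.le _),
      Real.norm_of_nonneg (Real.rpow_nonneg hx0.le _)] at h9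
    have h10 : x ^ (1 / 20 : ℝ) * x ^ (9 / 20 : ℝ) = x ^ (1 / 2 : ℝ) := by
      rw [← Real.rpow_add hx0]; norm_num
    have hlA : 0 < l ^ A := Real.rpow_pos_of_pos hl0 _
    have h11 : l ^ (A + 2) = l ^ A * l ^ 2 := by
      rw [Real.rpow_add hl0]; norm_num
    have h12 : (D : ℝ) * D * l ^ (A + 2) ≤ x ^ (1 / 2 : ℝ) := by
      rw [← h10]
      exact mul_le_mul h8 h9 (Real.rpow_nonneg hl0.le _) (Real.rpow_nonneg hx0.le _)
    rw [h11] at h12
    rw [le_div_iff₀ hlA]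
    have h13 : (D : ℝ) * (D * (2 * l) * (l * (G / x ^ (1 / 2 : ℝ)))) * l ^ A =
        2 * G * ((D : ℝ) * D * (l ^ A * l ^ 2)) / x ^ (1 / 2 : ℝ) := by
      field_simp
    rw [h13, div_le_iff₀ hxs]
    exact mul_le_mul_of_nonneg_left h12 (by positivity)
  have hE2 : ∑ d ∈ Icc 1 D, E2 N g x d ≤ 2 * (N * G) / l ^ A := by
    unfold E2
    rw [← Finset.mul_sum]
    refine (mul_le_mul_of_nonneg_left hEE (Nat.cast_nonneg N)).trans (le_of_eq ?_)
    ring
  -- conclusion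
  have hlA : 0 < l ^ A := Real.rpow_pos_of_pos hl0 _
  have h11 : l ^ (A + 2) = l ^ A * l ^ 2 := by
    rw [Real.rpow_add hl0]; norm_num
  calc ∑ d ∈ Icc 1 D,
        |∑ n ∈ (Icc 1 ⌊x⌋₊).filter (fun n => n ≡ c d [MOD d]), L n * wt g x n -
          (1 / (d.totient : ℝ)) * ∑ n ∈ Icc 1 ⌊x⌋₊, L n * wt g x n|
      ≤ ∑ d ∈ Icc 1 D, ((1 / (d.totient : ℝ)) * ∑ q ∈ d.divisors.filter (fun q => 1 < q),
        ∑ ψ ∈ prim q, ‖SS (cx L) g x ψ‖ + E2 N g x d) := by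
        refine Finset.sum_le_sum fun d hd => ?_
        exact one_modulus hL0 hLN hg x (Finset.mem_Icc.mp hd).1 (hc d)
    _ = (∑ d ∈ Icc 1 D, (1 / (d.totient : ℝ)) * ∑ q ∈ d.divisors.filter (fun q => 1 < q),
        ∑ ψ ∈ prim q, ‖SS (cx L) g x ψ‖) + ∑ d ∈ Icc 1 D, E2 N g x d := Finset.sum_add_distrib
    _ ≤ (C1 + C2) / l ^ (A + 2) * (4 * l ^ 2) + 2 * (N * G) / l ^ A := by
        refine add_le_add ((swap L g x D).trans ?_) hE2
        refine mul_le_mul hall hphi (Finset.sum_nonneg fun m _ => by positivity) (by positivity)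
    _ = (4 * (C1 + C2) + 2 * (N * G)) / l ^ A := by
        rw [h11]
        field_simp


end Pool.Agent.Helper95.NF
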