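import Pool.Agent.Helper18.NF.StN

/-!
Project NF (MP_265190_nt), module N10: the radical field `ℚ(B^(1/D))`, and its ideals of prime norm.
-/

set_option autoImplicit false

open Polynomial NumberField Module
open Pool.TP (idc)

namespace Pool.Agent.Helper95.NF

open Pool.Agent.Helper18.NF Pool.Agent.Helper18.BV

namespace RadField

theorem rat_pow_eq {l B : ℕ} (hl : Odd l) {b : ℚ} (h : b ^ l = (B : ℚ)) :
    ∃ c : ℕ, c ^ l = B := by
  have hl0 : l ≠ 0 := by rintro rfl; simp at hl
  have h1 : (b ^ l).den = 1 := by rw [h]; simp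
  rw [Rat.den_pow] at h1
  have h2 : b.den = 1 := by
    rcases Nat.pow_eq_one.1 h1 with h | h
    · exact h
    · exact absurd h hl0
  have h3 : b = (b.num : ℚ) := by
    have := Rat.num_div_den b
    rw [h2] at this
    simpa using this.symm
  rw [h3] at h
  have h4 : b.num ^ l = (B : ℤ) := by exact_mod_cast h
  have h5 : 0 ≤ b.num := by
    by_contra hc
    have h6 := hl.pow_neg (not_le.1 hc)
    rw [h4] at h6
    have : (0 : ℤ) ≤ (B : ℤ) := Int.natCast_nonneg B
    omega
  refine ⟨b.num.toNat, ?_⟩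
  have : ((b.num.toNat ^ l : ℕ) : ℤ) = B := by
    rw [Nat.cast_pow, Int.toNat_of_nonneg h5, h4]
  exact_mod_cast this

theorem irred {D B : ℕ} (hD : Odd D) (hN : NP D B) :
    Irreducible (X ^ D - C (B : ℚ)) := by
  refine X_pow_sub_C_irreducible_of_odd hD fun p hp hpD b hb => ?_
  obtain ⟨c, hc⟩ := rat_pow_eq (hD.of_dvd_nat hpD) hb
  exact hN p hp hpD c hc

/-- ideals of norm `p` are the kernels of the homomorphisms to `ZMod p` -/
noncomputable def kerMap (K : Type) [Field K] [NumberField K] (p : ℕ) [Fact p.Prime]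
    (φ : 𝓞 K →+* ZMod p) : {I : Ideal (𝓞 K) // Ideal.absNorm I = p} :=
  ⟨RingHom.ker φ, by
    have e := RingHom.quotientKerEquivOfSurjective (ZMod.ringHom_surjective φ)
    rw [Ideal.absNorm_apply, Submodule.cardQuot_apply, Nat.card_congr e.toEquiv]
    simp⟩

theorem kerMap_bij (K : Type) [Field K] [NumberField K] (p : ℕ) [Fact p.Prime] :
    Function.Bijective (kerMap K p) := by
  constructor
  · intro φ ψ h
    have hk : RingHom.ker φ = RingHom.ker ψ := congrArg Subtype.val h
    ext x
    have h1 : x - ((φ x).val : 𝓞 K) ∈ RingHom.ker φ := by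
      rw [RingHom.mem_ker, map_sub, map_natCast, ZMod.natCast_zmod_val, sub_self]
    rw [hk, RingHom.mem_ker, map_sub, map_natCast, ZMod.natCast_zmod_val, sub_eq_zero] at h1
    exact h1.symm
  · rintro ⟨I, hI⟩
    have hc : Nat.card (𝓞 K ⧸ I) = p := by
      rw [Ideal.absNorm_apply, Submodule.cardQuot_apply] at hI
      exact hI
    have hp : p.Prime := Fact.out
    have hf : Finite (𝓞 K ⧸ I) := Nat.finite_of_card_ne_zero (by rw [hc]; exact hp.ne_zero)
    have : Fintype (𝓞 K ⧸ I) := Fintype.ofFinite _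
    have e := ZMod.ringEquivOfPrime (𝓞 K ⧸ I) hp (by rw [← hc, Nat.card_eq_fintype_card])
    refine ⟨(e.symm : (𝓞 K ⧸ I) →+* ZMod p).comp (Ideal.Quotient.mk I), Subtype.ext ?_⟩
    change RingHom.ker _ = I
    ext x
    rw [RingHom.mem_ker]
    simp [Ideal.Quotient.eq_zero_iff_mem]

/-- homomorphisms to `ZMod p` correspond to roots -/
theorem homs_bij (K : Type) [Field K] [NumberField K] (D B p N : ℕ) (hp : p.Prime)
    (θ : 𝓞 K) (hθ : θ ^ D = (B : 𝓞 K)) (hN : ¬ p ∣ N)
    (h1 : ∀ y : 𝓞 K, ∃ P : ℤ[X], aeval θ P = (N : 𝓞 K) * y)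
    (h2 : ∀ P : ℤ[X], aeval θ P = 0 → (X ^ D - C (B : ℤ)) ∣ P) :
    Function.Bijective (fun φ : 𝓞 K →+* ZMod p =>
      (⟨φ θ, by rw [← map_pow, hθ, map_natCast]⟩ : {x : ZMod p // x ^ D = (B : ZMod p)})) := by
  have : Fact p.Prime := ⟨hp⟩
  have hN0 : (N : ZMod p) ≠ 0 := by
    intro h
    exact hN ((ZMod.natCast_eq_zero_iff N p).1 h)
  choose P hP using h1
  constructor
  · intro φ ψ h
    have h3 : φ θ = ψ θ := congrArg Subtype.val h
    ext x
    have h4 : ∀ χ : 𝓞 K →+* ZMod p, (N : ZMod p) * χ x = (P x).eval₂ (Int.castRingHom _) (χ θ) := by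
      intro χ
      have h5 : χ (aeval θ (P x)) = (N : ZMod p) * χ x := by
        rw [hP, map_mul, map_natCast]
      rw [← h5, aeval_def, hom_eval₂]
      congr 1
      exact RingHom.ext_int _ _
    have h6 := h4 φ
    rw [h3, ← h4 ψ] at h6
    exact mul_left_cancel₀ hN0 h6
  · rintro ⟨x, hx⟩
    let ψ : ℤ[X] →+* ZMod p := eval₂RingHom (Int.castRingHom _) x
    have hψX : ψ X = x := by simp [ψ]
    have hψN : ∀ n : ℕ, ψ (n : ℤ[X]) = n := fun n => map_natCast ψ n
    have hker : ∀ Q : ℤ[X], aeval θ Q = 0 → ψ Q = 0 := by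
      intro Q hQ
      obtain ⟨q, rfl⟩ := h2 Q hQ
      rw [map_mul, map_sub, map_pow, hψX]
      have : ψ (C (B : ℤ)) = B := by simp [ψ]
      rw [this, hx, sub_self, zero_mul]
    have hval : ∀ (Q : ℤ[X]) (y : 𝓞 K) , aeval θ Q = y → ψ (P y) = N * ψ Q := by
      intro Q y hQ
      have h7 : aeval θ (P y - (N : ℤ[X]) * Q) = 0 := by
        rw [map_sub, map_mul, hP, hQ, map_natCast, sub_self]
      have h8 := hker _ h7
      rw [map_sub, map_mul, hψN, sub_eq_zero] at h8
      exact h8
    let φ : 𝓞 K →+* ZMod p :=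
      { toFun := fun y => (N : ZMod p)⁻¹ * ψ (P y)
        map_one' := by
          rw [hval 1 1 (by simp), map_one, mul_one, inv_mul_cancel₀ hN0]
        map_zero' := by
          rw [hval 0 0 (by simp), map_zero, mul_zero, mul_zero]
        map_mul' := by
          intro y z
          have h9 : aeval θ ((N : ℤ[X]) * P (y * z) - P y * P z) = 0 := by
            rw [map_sub, map_mul, map_mul, hP, hP, hP, map_natCast]
            ring
          have h10 := hker _ h9
          rw [map_sub, map_mul, map_mul, hψN, sub_eq_zero] at h10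
          have h11 : ψ (P (y * z)) = (N : ZMod p)⁻¹ * (ψ (P y) * ψ (P z)) := by
            rw [← h10, inv_mul_cancel_left₀ hN0]
          rw [h11]
          ring
        map_add' := by
          intro y z
          have h9 : aeval θ (P (y + z) - (P y + P z)) = 0 := by
            rw [map_sub, map_add, hP, hP, hP]
            ring
          have h10 := hker _ h9
          rw [map_sub, map_add, sub_eq_zero] at h10
          rw [h10]
          ring }
    refine ⟨φ, Subtype.ext ?_⟩
    change (N : ZMod p)⁻¹ * ψ (P θ) = x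
    rw [hval X θ (by simp), hψX, inv_mul_cancel_left₀ hN0]

theorem core (K : Type) [Field K] [NumberField K] (D B : ℕ) (hD0 : D ≠ 0)
    (hirr : Irreducible (X ^ D - C (B : ℚ))) (hfr : finrank ℚ K = D) (t : K)
    (ht : t ^ D = (B : K)) :
    ∃ p0 : ℕ, ∀ p : ℕ, p.Prime → p0 ≤ p → idc K p = rc D B p := by
  have hint : IsIntegral ℤ t := by
    refine IsIntegral.of_pow (Nat.pos_of_ne_zero hD0) ?_
    rw [ht]
    exact isIntegral_natCast B
  let θ : 𝓞 K := ⟨t, hint⟩
  have hθc : ((θ : 𝓞 K) : K) = t := rfl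
  have hθ : θ ^ D = (B : 𝓞 K) := by
    apply RingOfIntegers.coe_injective
    simpa [hθc] using ht
  have hmin : minpoly ℚ t = X ^ D - C (B : ℚ) := by
    refine (minpoly.eq_of_irreducible_of_monic hirr ?_ (monic_X_pow_sub_C _ hD0)).symm
    simp [ht]
  have hminZ : minpoly ℤ t = X ^ D - C (B : ℤ) := by
    have h := minpoly.isIntegrallyClosed_eq_field_fractions' ℚ hint
    rw [hmin] at h
    apply Polynomial.map_injective (algebraMap ℤ ℚ) (algebraMap ℤ ℚ).injective_int
    rw [← h]
    simp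
  have h2 : ∀ P : ℤ[X], aeval θ P = 0 → (X ^ D - C (B : ℤ)) ∣ P := by
    intro P hP
    rw [← hminZ]
    refine minpoly.isIntegrallyClosed_dvd hint ?_
    have h := congrArg (algebraMap (𝓞 K) K) hP
    rw [← aeval_algebraMap_apply K, map_zero] at h
    exact h
  have htop : IntermediateField.adjoin ℚ {t} = ⊤ := by
    rw [Field.primitive_element_iff_minpoly_natDegree_eq, hmin, hfr, natDegree_X_pow_sub_C]
  have htop2 : Algebra.adjoin ℚ {t} = ⊤ := by
    have h := IntermediateField.adjoin_simple_toSubalgebra_of_isAlgebraic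
      (Algebra.IsAlgebraic.isAlgebraic (R := ℚ) t)
    rw [← h, htop, IntermediateField.top_toSubalgebra]
  set pb : PowerBasis ℚ K := PowerBasis.ofAdjoinEqTop (hint.tower_top) htop2 with hpb
  have hgen : pb.gen = t := PowerBasis.ofAdjoinEqTop_gen _ _
  have hint' : IsIntegral ℤ pb.gen := by rw [hgen]; exact hint
  have hdint : IsIntegral ℤ (Algebra.discr ℚ pb.basis) := by
    apply Algebra.discr_isIntegral
    intro i
    rw [PowerBasis.coe_basis]
    exact hint'.pow _
  obtain ⟨d, hd⟩ := IsIntegrallyClosed.isIntegral_iff.1 hdint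
  have hd0 : d ≠ 0 := by
    rintro rfl
    exact Algebra.discr_not_zero_of_basis ℚ pb.basis (by rw [← hd]; simp)
  have h1 : ∀ y : 𝓞 K, ∃ P : ℤ[X], aeval θ P = (d.natAbs : 𝓞 K) * y := by
    intro y
    have h3 := Algebra.discr_mul_isIntegral_mem_adjoin (R := ℤ) ℚ (B := pb) hint' y.isIntegral_coe
    rw [hgen, Algebra.adjoin_singleton_eq_range_aeval] at h3
    obtain ⟨P, hP⟩ := h3
    have hP' : aeval t P = Algebra.discr ℚ pb.basis • (y : K) := hP
    have h4 : aeval θ P = (d : 𝓞 K) * y := by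
      apply RingOfIntegers.coe_injective
      change algebraMap (𝓞 K) K (aeval θ P) = _
      rw [← aeval_algebraMap_apply K]
      change aeval t P = _
      rw [hP', ← hd, Algebra.smul_def]
      simp
    rcases Int.natAbs_eq d with h5 | h5
    · refine ⟨P, ?_⟩
      rw [h4]
      congr 1
      conv_lhs => rw [h5]
      simp
    · refine ⟨-P, ?_⟩
      rw [map_neg, h4, ← neg_mul]
      congr 1
      conv_lhs => rw [h5]
      simp
  refine ⟨d.natAbs + 1, fun p hp hpd => ?_⟩
  have hndvd : ¬ p ∣ d.natAbs := by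
    intro h
    have := Nat.le_of_dvd (Int.natAbs_pos.2 hd0) h
    omega
  have : Fact p.Prime := ⟨hp⟩
  have e1 := Equiv.ofBijective _ (kerMap_bij K p)
  have e2 := Equiv.ofBijective _ (homs_bij K D B p d.natAbs hp θ hθ hndvd h1 h2)
  unfold idc rc
  exact Nat.card_congr (e1.symm.trans e2)

end RadField

/-- N10: radical extensions. -/
theorem radField : RadField := by
  intro D B hD hB hN
  have hirr := RadField.irred hD hN
  have hD0 : D ≠ 0 := by rintro rfl; simp at hD
  set f : ℚ[X] := X ^ D - C (B : ℚ) with hf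
  have : Fact (Irreducible f) := ⟨hirr⟩
  have hcz : CharZero (AdjoinRoot f) :=
    charZero_of_injective_algebraMap (algebraMap ℚ (AdjoinRoot f)).injective
  have hfd : FiniteDimensional ℚ (AdjoinRoot f) := by
    convert (AdjoinRoot.powerBasis hirr.ne_zero).finite
  have hnf : NumberField (AdjoinRoot f) := { to_charZero := hcz, to_finiteDimensional := hfd }
  have hfr : finrank ℚ (AdjoinRoot f) = D := by
    have h := (AdjoinRoot.powerBasis hirr.ne_zero).finrank
    rw [AdjoinRoot.powerBasis_dim] at h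
    have h2 : f.natDegree = D := by rw [hf, natDegree_X_pow_sub_C]
    rw [h2] at h
    convert h
  have hroot : (AdjoinRoot.root f) ^ D = (B : AdjoinRoot f) := by
    have h := AdjoinRoot.eval₂_root f
    rw [hf, eval₂_sub, eval₂_X_pow, eval₂_C, sub_eq_zero] at h
    rw [h]
    simp
  exact ⟨AdjoinRoot f, inferInstance, hnf, hfr, RadField.core _ D B hD0 hirr hfr _ hroot⟩

end Pool.Agent.Helper95.NF
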